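import Pool.Agent.K7.H37.FV.Vx

/-!
# The bound for the Jacobian on a shell
-/

set_option autoImplicit false

open MeasureTheory Metric Set Filter Topology InnerProductGeometry

namespace Pool.Agent.K7.H37.FV

open Pool.Agent.W716.FV (E gam gd Good)
open Pool.Agent.K7.H34.FV

variable {n : ℕ}

/-- `x = (1 - r) / (1 - λ r²)` -/
noncomputable def xx (l r : ℝ) : ℝ := (1 - r) / (1 - l * r ^ 2)

/-- `A = (1 - λ) r² / (1 - λ r²)` -/
noncomputable def aa (l r : ℝ) : ℝ := (1 - l) * r ^ 2 / (1 - l * r ^ 2)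

theorem den_pos {l r : ℝ} (hl1 : l < 1) (hl0 : 0 < l) (hr0 : 0 ≤ r) (hr1 : r ≤ 1) :
    0 < 1 - l * r ^ 2 := by
  have : r ^ 2 ≤ 1 := by nlinarith
  nlinarith

theorem xx_anti {l a r : ℝ} (hl0 : 0 < l) (hl1 : l < 1) (ha0 : 0 ≤ a) (har : a ≤ r)
    (hr1 : r ≤ 1) : xx l r ≤ xx l a := by
  unfold xx
  rw [div_le_div_iff₀ (den_pos hl1 hl0 (ha0.trans har) hr1)
    (den_pos hl1 hl0 ha0 (har.trans hr1))]
  have h : 0 ≤ (r - a) * (1 - l + l * ((1 - r) * (1 - a))) := by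
    apply mul_nonneg (by linarith)
    have : 0 ≤ l * ((1 - r) * (1 - a)) :=
      mul_nonneg hl0.le (mul_nonneg (by linarith) (by linarith))
    linarith
  nlinarith

theorem xx_nonneg {l r : ℝ} (hl0 : 0 < l) (hl1 : l < 1) (hr0 : 0 ≤ r) (hr1 : r ≤ 1) :
    0 ≤ xx l r := div_nonneg (by linarith) (den_pos hl1 hl0 hr0 hr1).le

theorem aa_mono {l a r : ℝ} (hl0 : 0 < l) (hl1 : l < 1) (ha0 : 0 ≤ a) (har : a ≤ r)
    (hr1 : r ≤ 1) : aa l a ≤ aa l r := by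
  unfold aa
  rw [div_le_div_iff₀ (den_pos hl1 hl0 ha0 (har.trans hr1))
    (den_pos hl1 hl0 (ha0.trans har) hr1)]
  have h : a ^ 2 ≤ r ^ 2 := pow_le_pow_left₀ ha0 har 2
  nlinarith

theorem aa_le {l r : ℝ} (hl0 : 0 < l) (hl1 : l < 1) (hr0 : 0 ≤ r) (hr1 : r ≤ 1) :
    aa l r ≤ 1 := by
  unfold aa
  rw [div_le_one (den_pos hl1 hl0 hr0 hr1)]
  nlinarith

/-- the data of a shell -/
structure Data where
  (a c t B s b θ m w f : ℝ)

/-- the conditions for a shell -/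
structure Data.Ok (n : ℕ) (l : ℝ) (D : Data) : Prop where
  a0 : 0 ≤ D.a
  ac : D.a ≤ D.c
  c1 : D.c ≤ 1
  t0 : 0 ≤ D.t
  B0 : 0 < D.B
  s0 : 0 ≤ D.s
  s1 : D.s < 1
  top : l * D.c * (xx l D.a + (n - 1) * D.t ^ 2 / 2) ≤ D.s * (1 + D.t)
  bot : l * D.c * ((n - 1) * D.B * xx l D.a + (1 - D.B) ^ 2 / (2 * D.B)) ≤ D.b
  vb : -D.b < D.b - (n - 2) * D.s
  vs : D.b - (n - 2) * D.s < D.s
  θ0 : 0 ≤ D.θ
  θb : 2 * D.θ * (1 + D.b) ^ 2 ≤ 1
  m0 : 0 ≤ D.m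
  m1 : D.m ≤ 1
  mix : (D.m * D.θ + (1 - D.m) * phs D.s) * (12 * n * l ^ 2 * D.c ^ 2 * (1 - aa l D.a / n)) ≤
    (n + 4) * (1 - l * D.c ^ 2)
  f0 : 0 < D.f
  f1 : D.f ≤ dV n D.s D.b * (1 + D.θ * hV n D.s D.b + (D.θ * hV n D.s D.b) ^ 2 / 2)
  w0 : 0 ≤ D.w
  fin : D.w ^ 2 * ((1 - l * D.a ^ 2) * (1 - aa l D.a / n) ^ n) ≤
    (D.f / (D.f + D.m * (1 - D.f))) ^ 2

theorem phs_nonneg {s : ℝ} (hs0 : 0 ≤ s) (hs1 : s < 1) : 0 ≤ phs s := by
  unfold phs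
  have : 0 ≤ s ^ 4 / (1 - s) := div_nonneg (by positivity) (by linarith)
  positivity

theorem nm_le (hn : 2 ≤ n) {μ : ℝ} (hμ0 : 0 < μ) (hμ1 : μ < 1) {u : E n → ℝ} (hu : Good μ u)
    {p : E n} {r : ℝ} (hr : ‖p‖ = μ * r) (hr0 : 0 ≤ r) (hr1 : r ≤ 1) (h0 : tau u p = 0)
    {θ : ℝ} (hθ : θ * (12 * n * (μ ^ 2) ^ 2 * r ^ 2 * (1 - aa (μ ^ 2) r / n)) ≤
      (n + 4) * (1 - μ ^ 2 * r ^ 2)) :
    nm μ u p ≤ μ ^ 2 * (1 - aa (μ ^ 2) r / n) * Real.exp (-(2 * θ * hs (Sop u p) / n)) := by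
  have hn' : (0 : ℝ) < n := by exact_mod_cast (by omega : 0 < n)
  have hn2 : (2 : ℝ) ≤ n := by exact_mod_cast hn
  have hl0 : 0 < μ ^ 2 := by positivity
  have hl1 : μ ^ 2 < 1 := by nlinarith
  have hd := den_pos hl1 hl0 hr0 hr1
  have hp : ‖p‖ < 1 := by
    rw [hr]
    nlinarith
  have hz := pz_pos hp
  have hz2 : pz p ^ 2 = 1 - μ ^ 2 * r ^ 2 := by rw [pz_sq hp, hr]; ring
  have hη : ‖eta p‖ ^ 2 = μ ^ 2 * r ^ 2 / (1 - μ ^ 2 * r ^ 2) := by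
    rw [norm_eta_sq hp, hz2, hr]; ring
  have hA1 := aa_le hl0 hl1 hr0 hr1
  set A := aa (μ ^ 2) r with hA
  have hA' : 0 ≤ 1 - A / n := by
    rw [sub_nonneg, div_le_one hn']
    linarith
  set H := hs (Sop u p) with hH
  have hH0 : 0 ≤ H := hs_nonneg _
  have hu1 := good_one hμ1.le hu
  have h1 := hs_le hu1 h0 (by omega : 0 < n)
  have hk0 := k2_nonneg u p
  rw [← hH, hη] at h1
  set K := k2 u p / μ ^ 2 with hK
  have hk : k2 u p = μ ^ 2 * K := by rw [hK]; field_simp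
  have hK0 : 0 ≤ K := div_nonneg hk0 hl0.le
  have e1 : nm μ u p = μ ^ 2 * (1 - A / n - K / n) := by
    unfold nm
    rw [hη, hk, hA]
    unfold aa
    field_simp
    ring
  have h2 : 2 * θ * H * (1 - A / n) ≤ K := by
    rcases hr0.eq_or_lt with h | h
    · rw [← h] at h1
      have h9 : ((n : ℝ) + 4) * H ≤ 0 := by simpa using h1
      have : H = 0 := by nlinarith
      rw [this]
      simpa using hK0
    · have h3 : (n + 4) * H * (1 - μ ^ 2 * r ^ 2) ≤ 6 * n * (μ ^ 2) ^ 2 * r ^ 2 * K := by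
        rw [hk] at h1
        have h4 := mul_le_mul_of_nonneg_right h1 hd.le
        refine h4.trans (le_of_eq ?_)
        field_simp
      have h5 := mul_le_mul_of_nonneg_right hθ hH0
      have h6 : 0 < 6 * n * (μ ^ 2) ^ 2 * r ^ 2 := by positivity
      have h7 : 6 * n * (μ ^ 2) ^ 2 * r ^ 2 * (2 * θ * H * (1 - A / n)) ≤
          6 * n * (μ ^ 2) ^ 2 * r ^ 2 * K := by
        refine le_trans (le_of_eq ?_) (h5.trans (le_trans (le_of_eq ?_) h3))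
        · ring
        · ring
      exact le_of_mul_le_mul_left h7 h6
  rw [e1, mul_assoc]
  refine mul_le_mul_of_nonneg_left ?_ hl0.le
  have h3 := Real.add_one_le_exp (-(2 * θ * H / n))
  calc 1 - A / n - K / n ≤ 1 - A / n - (2 * θ * H * (1 - A / n)) / n := by
        have := div_le_div_of_nonneg_right h2 hn'.le
        linarith
    _ = (1 - A / n) * (-(2 * θ * H / n) + 1) := by ring
    _ ≤ _ := mul_le_mul_of_nonneg_left h3 hA'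

theorem cell (hn : 2 ≤ n) {μ : ℝ} (hμ0 : 0 < μ) (hμ1 : μ < 1) {D : Data}
    (hD : D.Ok n (μ ^ 2)) {u : E n → ℝ} (hu : Good μ u) {p : E n}
    (h1 : μ * D.a ≤ ‖p‖) (h2 : ‖p‖ ≤ μ * D.c) (h0 : tau u p = 0) :
    D.w * pz p * √(nm μ u p) ^ n ≤ μ ^ n * (ContinuousLinearMap.id ℝ (E n) - Sop u p).det ∧
      0 < (ContinuousLinearMap.id ℝ (E n) - Sop u p).det := by
  have hn' : (0 : ℝ) < n := by exact_mod_cast (by omega : 0 < n)
  have hn2 : (2 : ℝ) ≤ n := by exact_mod_cast hn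
  have hl0 : 0 < μ ^ 2 := by positivity
  have hl1 : μ ^ 2 < 1 := by nlinarith
  set r := ‖p‖ / μ with hrd
  have hr : ‖p‖ = μ * r := by rw [hrd]; field_simp
  rw [hr] at h1 h2
  have har : D.a ≤ r := le_of_mul_le_mul_left h1 hμ0
  have hrc : r ≤ D.c := le_of_mul_le_mul_left h2 hμ0
  have hr0 : 0 ≤ r := hD.a0.trans har
  have hr1 : r ≤ 1 := hrc.trans hD.c1
  have hd := den_pos hl1 hl0 hr0 hr1
  have hp : ‖p‖ < 1 := by
    rw [hr]
    nlinarith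
  have hpm : ‖p‖ ≤ μ := by
    rw [hr]
    nlinarith
  have hxr := xx_nonneg hl0 hl1 hr0 hr1
  have hxa := xx_anti hl0 hl1 hD.a0 har hr1
  have hc0 : 0 ≤ D.c := hD.a0.trans hD.ac
  have ex : ‖p‖ * (μ - ‖p‖) / (1 - ‖p‖ ^ 2) = μ ^ 2 * r * xx (μ ^ 2) r := by
    rw [hr]
    unfold xx
    have : 1 - (μ * r) ^ 2 = 1 - μ ^ 2 * r ^ 2 := by ring
    rw [this]
    field_simp
  have htop : ∀ x : E n, ‖x‖ = 1 → (inner ℝ (Sop u p x) x : ℝ) ≤ D.s := by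
    intro x hx
    have h3 := top_mu hμ0 hμ1.le hu hp hpm h0 hx hD.t0
    rw [ex] at h3
    have h4 : μ ^ 2 * r * xx (μ ^ 2) r + (n - 1) * D.t ^ 2 * (μ * ‖p‖) / 2 ≤
        D.s * (1 + D.t) := by
      refine le_trans ?_ hD.top
      have h5 : μ ^ 2 * r * xx (μ ^ 2) r + (n - 1) * D.t ^ 2 * (μ * ‖p‖) / 2 =
          μ ^ 2 * r * (xx (μ ^ 2) r + (n - 1) * D.t ^ 2 / 2) := by rw [hr]; ring
      rw [h5]
      have h6 : 0 ≤ (n - 1) * D.t ^ 2 / 2 := by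
        have : (0 : ℝ) ≤ n - 1 := by linarith
        positivity
      exact mul_le_mul (mul_le_mul_of_nonneg_left hrc hl0.le) (by linarith)
        (by linarith) (by positivity)
    have h5 : 0 < 1 + D.t := by linarith [hD.t0]
    exact le_of_mul_le_mul_right (h3.trans h4) h5
  have hbot : ∀ x : E n, ‖x‖ = 1 → -(inner ℝ (Sop u p x) x : ℝ) ≤ D.b := by
    intro x hx
    have h3 := bot_mu hμ0 hμ1.le hu hp hpm h0 hx hD.B0
    rw [ex] at h3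
    refine h3.trans (le_trans ?_ hD.bot)
    have hB := hD.B0
    have h5 : (n - 1) * D.B * (μ ^ 2 * r * xx (μ ^ 2) r) + (1 - D.B) ^ 2 * (μ * ‖p‖) / (2 * D.B) =
          μ ^ 2 * r * ((n - 1) * D.B * xx (μ ^ 2) r + (1 - D.B) ^ 2 / (2 * D.B)) := by
      rw [hr]; ring
    rw [h5]
    have h6 : 0 ≤ (n - 1) * D.B := mul_nonneg (by linarith) hB.le
    have h7 : 0 ≤ (1 - D.B) ^ 2 / (2 * D.B) := by positivity
    refine mul_le_mul (mul_le_mul_of_nonneg_left hrc hl0.le) ?_ ?_ (by positivity)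
    · have := mul_le_mul_of_nonneg_left hxa h6
      linarith
    · have := mul_nonneg h6 hxr
      linarith
  have hu1 := good_one hμ1.le hu
  set θ' := D.m * D.θ + (1 - D.m) * phs D.s with hθ'
  have hθ'0 : 0 ≤ θ' := by
    have a1 := mul_nonneg hD.m0 hD.θ0
    have a2 := mul_nonneg (sub_nonneg.2 hD.m1) (phs_nonneg hD.s0 hD.s1)
    linarith
  obtain ⟨hpos, hdet⟩ := det_mix hn (Sop_Sy hu1 p) (Sop_tr hu1 h0) hD.s0 hD.s1 hD.vb hD.vs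
    hD.θb hD.θ0 hD.m0 hD.m1 (le_refl θ') hD.f0 hD.f1 htop hbot
  refine ⟨?_, hpos⟩
  -- the numerator
  have hAr := aa_le hl0 hl1 hr0 hr1
  have hAa := aa_mono hl0 hl1 hD.a0 har hr1
  have hA' : 0 ≤ 1 - aa (μ ^ 2) r / n := by
    rw [sub_nonneg, div_le_one hn']
    linarith
  have hAA : 1 - aa (μ ^ 2) r / n ≤ 1 - aa (μ ^ 2) D.a / n := by
    have := div_le_div_of_nonneg_right hAa hn'.le
    linarith
  have hra : r ^ 2 ≤ D.c ^ 2 := pow_le_pow_left₀ hr0 hrc 2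
  have haa : D.a ^ 2 ≤ r ^ 2 := pow_le_pow_left₀ hD.a0 har 2
  have hth : θ' * (12 * n * (μ ^ 2) ^ 2 * r ^ 2 * (1 - aa (μ ^ 2) r / n)) ≤
      (n + 4) * (1 - μ ^ 2 * r ^ 2) := by
    have a1 : 12 * n * (μ ^ 2) ^ 2 * r ^ 2 * (1 - aa (μ ^ 2) r / n) ≤
        12 * n * (μ ^ 2) ^ 2 * D.c ^ 2 * (1 - aa (μ ^ 2) D.a / n) := by
      refine mul_le_mul (mul_le_mul_of_nonneg_left hra (by positivity)) hAA hA' (by positivity)
    refine (mul_le_mul_of_nonneg_left a1 hθ'0).trans (hD.mix.trans ?_)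
    have : 1 - μ ^ 2 * D.c ^ 2 ≤ 1 - μ ^ 2 * r ^ 2 := by nlinarith
    exact mul_le_mul_of_nonneg_left this (by linarith)
  have hnm := nm_le hn hμ0 hμ1 hu hr hr0 hr1 h0 hth
  have hnm0 := nm_nonneg hμ1.le hu hp h0 (by omega : 0 < n)
  set H := hs (Sop u p) with hH
  set F := D.f / (D.f + D.m * (1 - D.f)) with hF
  have hF0 : 0 ≤ F := by
    apply div_nonneg hD.f0.le
    have := hD.f0
    have := hD.m0
    have := hD.m1
    nlinarith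
  have hz := pz_pos hp
  have hz2 : pz p ^ 2 = 1 - μ ^ 2 * r ^ 2 := by rw [pz_sq hp, hr]; ring
  have hsq : (D.w * pz p * √(nm μ u p) ^ n) ^ 2 ≤
      (μ ^ n * (F * Real.exp (-(θ' * H)))) ^ 2 := by
    have e1 : (D.w * pz p * √(nm μ u p) ^ n) ^ 2 =
        D.w ^ 2 * (1 - μ ^ 2 * r ^ 2) * nm μ u p ^ n := by
      rw [mul_pow, mul_pow, hz2, ← pow_mul, mul_comm n 2, pow_mul, Real.sq_sqrt hnm0]
    have e2 : nm μ u p ^ n ≤ (μ ^ n) ^ 2 * (1 - aa (μ ^ 2) r / n) ^ n *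
        Real.exp (-(θ' * H)) ^ 2 := by
      refine (pow_le_pow_left₀ hnm0 hnm n).trans (le_of_eq ?_)
      rw [mul_pow, mul_pow, ← Real.exp_nat_mul, ← Real.exp_nat_mul]
      congr 1
      · congr 1
        rw [← pow_mul, ← pow_mul, mul_comm]
      · congr 1
        push_cast
        field_simp
    rw [e1]
    have e3 : (1 - μ ^ 2 * r ^ 2) * (1 - aa (μ ^ 2) r / n) ^ n ≤
        (1 - μ ^ 2 * D.a ^ 2) * (1 - aa (μ ^ 2) D.a / n) ^ n := by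
      refine mul_le_mul (by nlinarith) (pow_le_pow_left₀ hA' hAA n) (pow_nonneg hA' n) ?_
      nlinarith
    have e4 : D.w ^ 2 * ((1 - μ ^ 2 * r ^ 2) * (1 - aa (μ ^ 2) r / n) ^ n) ≤ F ^ 2 :=
      (mul_le_mul_of_nonneg_left e3 (sq_nonneg _)).trans hD.fin
    calc D.w ^ 2 * (1 - μ ^ 2 * r ^ 2) * nm μ u p ^ n ≤
        D.w ^ 2 * (1 - μ ^ 2 * r ^ 2) * ((μ ^ n) ^ 2 * (1 - aa (μ ^ 2) r / n) ^ n *
          Real.exp (-(θ' * H)) ^ 2) :=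
            mul_le_mul_of_nonneg_left e2 (mul_nonneg (sq_nonneg _) hd.le)
      _ = (D.w ^ 2 * ((1 - μ ^ 2 * r ^ 2) * (1 - aa (μ ^ 2) r / n) ^ n)) *
          ((μ ^ n) ^ 2 * Real.exp (-(θ' * H)) ^ 2) := by ring
      _ ≤ F ^ 2 * ((μ ^ n) ^ 2 * Real.exp (-(θ' * H)) ^ 2) :=
          mul_le_mul_of_nonneg_right e4 (mul_nonneg (sq_nonneg _) (sq_nonneg _))
      _ = _ := by ring
  have hμn : 0 ≤ μ ^ n := pow_nonneg hμ0.le n
  have h3 := le_of_sq_le_sq hsq (mul_nonneg hμn (mul_nonneg hF0 (Real.exp_pos _).le))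
  exact h3.trans (mul_le_mul_of_nonneg_left hdet hμn)

end Pool.Agent.K7.H37.FV
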