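import Pool.Agent.K7.H37.FV.Tot

/-!
# Certificates with rational numbers
-/

set_option autoImplicit false

open MeasureTheory Metric Set Filter Topology InnerProductGeometry

namespace Pool.Agent.K7.H37.FV

open Pool.Agent.H241R3.FV (Sph RChart om Fill norm_sph)
open Pool.Agent.W716.FV (E gam gd Good)
open Pool.Agent.K7.H34.FV

/-- rational data; the left end is the right end of the shell before -/
structure QD where
  (c t B s b θ m w f : ℚ)

/-- the real data -/
noncomputable def QD.re (a : ℚ) (D : QD) : Data :=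
  ⟨a, D.c, D.t, D.B, D.s, D.b, D.θ, D.m, D.w, D.f⟩

/-- the test for one shell -/
def okq (n : ℕ) (l a : ℚ) (D : QD) : Bool :=
  let N : ℚ := n
  let da := 1 - l * (a * a)
  let X := (1 - a) / da
  let A := 1 - (1 - l) * (a * a) / da / N
  let v := D.b - (N - 2) * D.s
  let dv := (1 - D.s) ^ (n - 2) * (1 - v) * (1 + D.b)
  let h := D.θ * ((N - 2) * (D.s * D.s) + v * v + D.b * D.b)
  let ph := 1 / 2 + D.s / 3 + D.s * D.s / 4 + D.s * D.s * D.s / 5 +
    D.s * D.s * (D.s * D.s) / (1 - D.s)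
  let g := D.f + D.m * (1 - D.f)
  decide (a ≤ D.c) && decide (D.c ≤ 1) && decide (0 ≤ D.t) && decide (0 < D.B) &&
  decide (0 ≤ D.s) && decide (D.s < 1) &&
  decide (l * D.c * (X + (N - 1) * (D.t * D.t) / 2) ≤ D.s * (1 + D.t)) &&
  decide (l * D.c * ((N - 1) * D.B * X + (1 - D.B) * (1 - D.B) / (2 * D.B)) ≤ D.b) &&
  decide (-D.b < v) && decide (v < D.s) && decide (0 ≤ D.θ) &&
  decide (2 * D.θ * ((1 + D.b) * (1 + D.b)) ≤ 1) && decide (0 ≤ D.m) && decide (D.m ≤ 1) &&
  decide ((D.m * D.θ + (1 - D.m) * ph) * (12 * N * (l * l) * (D.c * D.c) * A) ≤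
    (N + 4) * (1 - l * (D.c * D.c))) &&
  decide (0 < D.f) && decide (D.f ≤ dv * (1 + h + h * h / 2)) &&
  decide (0 < D.w) && decide (D.w * D.w * (g * g) * (da * A ^ n) ≤ D.f * D.f)

/-- the test -/
def chk (n : ℕ) (l : ℚ) : ℚ → List QD → Bool
  | a, [] => decide (a = 1)
  | a, D :: L => okq n l a D && chk n l D.c L

/-- the sum -/
def sumq (n : ℕ) : ℚ → List QD → ℚ
  | _, [] => 0
  | a, D :: L => D.w * (D.c ^ n - a ^ n) + sumq n D.c L

/-- the list of real data -/
noncomputable def rel : ℚ → List QD → List Data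
  | _, [] => []
  | a, D :: L => D.re a :: rel D.c L

/-- integer data -/
def qd (c t B s b θ m w f : ℕ) : QD :=
  ⟨mkRat c 100000, mkRat t 100000, mkRat B 100000, mkRat s 100000, mkRat b 100000,
    mkRat θ 100000, mkRat m 100000, mkRat w 100000, mkRat f 100000⟩

theorem okq_ok {n : ℕ} {l a : ℚ} {D : QD} (ha : 0 ≤ a) (h : okq n l a D = true) :
    (D.re a).Ok n (l : ℝ) ∧ 0 < (D.re a).w := by
  simp only [okq, Bool.and_eq_true, decide_eq_true_eq] at h
  obtain ⟨⟨⟨⟨⟨⟨⟨⟨⟨⟨⟨⟨⟨⟨⟨⟨⟨⟨h1, h2⟩, h3⟩, h4⟩, h5⟩, h6⟩, h7⟩, h8⟩, h9⟩, h10⟩, h11⟩, h12⟩, h13⟩,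
    h14⟩, h15⟩, h16⟩, h17⟩, h18⟩, h19⟩ := h
  have hg : (0 : ℝ) < D.f + D.m * (1 - D.f) := by
    have a1 : (0 : ℝ) < D.f := by exact_mod_cast h16
    have a2 : (0 : ℝ) ≤ D.m := by exact_mod_cast h13
    have a3 : (D.m : ℝ) ≤ 1 := by exact_mod_cast h14
    rcases eq_or_lt_of_le a3 with h | h
    · rw [h]; linarith
    · have : 0 < (1 - (D.m : ℝ)) * D.f := mul_pos (by linarith) a1
      nlinarith
  refine ⟨⟨?_, ?_, ?_, ?_, ?_, ?_, ?_, ?_, ?_, ?_, ?_, ?_, ?_, ?_, ?_, ?_, ?_, ?_, ?_, ?_⟩, ?_⟩ <;>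
    simp only [QD.re]
  · exact_mod_cast ha
  · exact_mod_cast h1
  · exact_mod_cast h2
  · exact_mod_cast h3
  · exact_mod_cast h4
  · exact_mod_cast h5
  · exact_mod_cast h6
  · unfold xx
    have := (Rat.cast_le (K := ℝ)).2 h7
    push_cast at this
    simp only [sq]
    exact this
  · unfold xx
    have := (Rat.cast_le (K := ℝ)).2 h8
    push_cast at this
    simp only [sq]
    exact this
  · have := (Rat.cast_lt (K := ℝ)).2 h9
    push_cast at this
    exact this
  · have := (Rat.cast_lt (K := ℝ)).2 h10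
    push_cast at this
    exact this
  · exact_mod_cast h11
  · have := (Rat.cast_le (K := ℝ)).2 h12
    push_cast at this
    simp only [sq]
    exact this
  · exact_mod_cast h13
  · exact_mod_cast h14
  · unfold aa phs
    have := (Rat.cast_le (K := ℝ)).2 h15
    push_cast at this
    have e1 : (D.s : ℝ) ^ 3 = D.s * D.s * D.s := by ring
    have e2 : (D.s : ℝ) ^ 4 = D.s * D.s * (D.s * D.s) := by ring
    rw [e1, e2]
    simp only [sq]
    exact this
  · exact_mod_cast h16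
  · unfold dV hV
    have := (Rat.cast_le (K := ℝ)).2 h17
    push_cast at this
    refine this.trans (le_of_eq ?_)
    ring
  · exact_mod_cast h18.le
  · unfold aa
    have := (Rat.cast_le (K := ℝ)).2 h19
    push_cast at this
    rw [div_pow, le_div_iff₀ (by positivity)]
    refine le_trans (le_of_eq ?_) (this.trans (le_of_eq ?_))
    · ring
    · ring
  · exact_mod_cast h18

theorem chk_ok {n : ℕ} {l : ℚ} : ∀ (L : List QD) (a : ℚ), 0 ≤ a →
    chk n l a L = true → (∀ D ∈ rel a L, D.Ok n (l : ℝ) ∧ 0 < D.w) ∧ Chn a (rel a L) ∧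
      ((sumq n a L : ℚ) : ℝ) = sumw n (rel a L)
  | [], a, _, h => by
    simp only [chk, decide_eq_true_eq] at h
    refine ⟨fun D hD => absurd hD (by simp [rel]), ?_, ?_⟩
    · show (a : ℝ) = 1
      exact_mod_cast h
    · simp [sumq, sumw, rel]
  | D :: L, a, ha, h => by
    simp only [chk, Bool.and_eq_true] at h
    obtain ⟨h1, h2⟩ := h
    have hk := okq_ok ha h1
    have hc : 0 ≤ D.c := by
      have := hk.1.ac
      simp only [QD.re] at this
      exact ha.trans (by exact_mod_cast this)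
    obtain ⟨i1, i2, i3⟩ := chk_ok L D.c hc h2
    refine ⟨?_, ⟨rfl, i2⟩, ?_⟩
    · intro D' hD'
      rcases List.mem_cons.1 hD' with rfl | hD'
      · exact hk
      · exact i1 D' hD'
    · show _ = sumw n (D.re a :: rel D.c L)
      rw [sumw_cons, ← i3]
      simp only [sumq, QD.re]
      push_cast
      ring

theorem vol_chk {d : ℕ} (hd : 1 ≤ d) {M : Type} [MetricSpace M] [CompactSpace M] (S : Fill d M)
    (hS : S.NonShort) (htop : S.Triangulated ∨ S.NoRetraction) {l : ℚ} (hl0 : 0 < l)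
    (hl1 : l < 1) (L : List QD) (hL : chk (d + 1) l 0 L = true) {C : ℝ}
    (hC : C * ((d + 1 : ℕ) * ∫ t in (0 : ℝ)..(Real.pi / 2), Real.sin t ^ d) ≤
      (sumq (d + 1) 0 L : ℚ)) :
    ENNReal.ofReal C * ((volume : Measure (E (d + 2))).toSphere univ / 2) ≤ S.vol := by
  have hl0' : (0 : ℝ) < l := by exact_mod_cast hl0
  have hl1' : (l : ℝ) < 1 := by exact_mod_cast hl1
  obtain ⟨h1, h2, h3⟩ := chk_ok (n := d + 1) L 0 le_rfl hL
  have hμ : √(l : ℝ) ^ 2 = l := Real.sq_sqrt hl0'.le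
  have h := vol_ge hd S hS htop (Real.sqrt_pos.2 hl0')
    (by rw [Real.sqrt_lt' one_pos]; simpa using hl1') (rel 0 L)
    (by rw [hμ]; exact h1) (by simpa using h2)
  refine le_trans ?_ h
  rw [sphere_total, ← ENNReal.ofReal_mul' (by
    have hom : 0 ≤ om (d + 1) := by unfold om; positivity
    have : 0 ≤ ∫ t in (0 : ℝ)..(Real.pi / 2), Real.sin t ^ d := by
      refine intervalIntegral.integral_nonneg (by positivity) fun t ht => ?_
      exact pow_nonneg (Real.sin_nonneg_of_nonneg_of_le_pi ht.1 (by linarith [ht.2, Real.pi_pos])) _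
    positivity)]
  refine ENNReal.ofReal_le_ofReal ?_
  rw [← h3]
  have hom : 0 ≤ om (d + 1) := by unfold om; positivity
  calc C * (((d + 1 : ℕ) : ℝ) * om (d + 1) * ∫ t in (0 : ℝ)..(Real.pi / 2), Real.sin t ^ d) =
      om (d + 1) * (C * ((d + 1 : ℕ) * ∫ t in (0 : ℝ)..(Real.pi / 2), Real.sin t ^ d)) := by ring
    _ ≤ _ := mul_le_mul_of_nonneg_left hC hom

end Pool.Agent.K7.H37.FV
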