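import Pool.Agent.K7.H37.FV.C4
import Pool.Agent.K7.H37.FV.C5
import Pool.Agent.K7.H37.FV.C6
import Pool.Agent.K7.H37.FV.C7
import Pool.Agent.K7.H37.FV.C8
import Pool.Agent.K7.H37.FV.C9
import Pool.Agent.K7.H37.FV.C10
import Pool.Agent.K7.H37.FV.C11

/-!
# The volume bounds in dimensions four to eleven
-/

set_option autoImplicit false

open MeasureTheory Metric Set Filter Topology InnerProductGeometry

namespace Pool.Agent.K7.H37.FV

open Pool.Agent.H241R3.FV (Sph RChart om Fill norm_sph)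
open Pool.Agent.W716.FV (E gam gd Good)
open Pool.Agent.K7.H34.FV

theorem wal (k : ℕ) : ∫ t in (0 : ℝ)..(Real.pi / 2), Real.sin t ^ (k + 2) =
    (k + 1) / (k + 2) * ∫ t in (0 : ℝ)..(Real.pi / 2), Real.sin t ^ k := by
  rw [integral_sin_pow]
  simp

theorem wal0 : ∫ t in (0 : ℝ)..(Real.pi / 2), Real.sin t ^ 0 = Real.pi / 2 := by simp

theorem wal1 : ∫ t in (0 : ℝ)..(Real.pi / 2), Real.sin t ^ 1 = 1 := by simp

theorem w3 : ∫ t in (0 : ℝ)..(Real.pi / 2), Real.sin t ^ 3 = 2 / 3 := by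
  rw [wal 1, wal1]; norm_num

theorem w4 : ∫ t in (0 : ℝ)..(Real.pi / 2), Real.sin t ^ 4 = 3 / 16 * Real.pi := by
  rw [wal 2, wal 0, wal0]; norm_num; ring

theorem w5 : ∫ t in (0 : ℝ)..(Real.pi / 2), Real.sin t ^ 5 = 8 / 15 := by
  rw [wal 3, w3]; norm_num

theorem w6 : ∫ t in (0 : ℝ)..(Real.pi / 2), Real.sin t ^ 6 = 5 / 32 * Real.pi := by
  rw [wal 4, w4]; norm_num; ring

theorem w7 : ∫ t in (0 : ℝ)..(Real.pi / 2), Real.sin t ^ 7 = 16 / 35 := by
  rw [wal 5, w5]; norm_num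

theorem w8 : ∫ t in (0 : ℝ)..(Real.pi / 2), Real.sin t ^ 8 = 35 / 256 * Real.pi := by
  rw [wal 6, w6]; norm_num; ring

theorem w9 : ∫ t in (0 : ℝ)..(Real.pi / 2), Real.sin t ^ 9 = 128 / 315 := by
  rw [wal 7, w7]; norm_num

theorem w10 : ∫ t in (0 : ℝ)..(Real.pi / 2), Real.sin t ^ 10 = 63 / 512 * Real.pi := by
  rw [wal 8, w8]; norm_num; ring

variable {M : Type} [MetricSpace M] [CompactSpace M]

theorem d3 (S : Fill 3 M) (hS : S.NonShort) (ht : S.Triangulated ∨ S.NoRetraction) :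
    ENNReal.ofReal (71 / 100) * ((volume : Measure (E (3 + 2))).toSphere univ / 2) ≤ S.vol := by
  refine vol_chk (by norm_num) S hS ht (l := 22 / 25) (by norm_num) (by norm_num) L4 t4 ?_
  have h := (Rat.cast_le (K := ℝ)).2 u4
  push_cast at h
  rw [w3]
  refine le_trans ?_ h
  norm_num

theorem d4 (S : Fill 4 M) (hS : S.NonShort) (ht : S.Triangulated ∨ S.NoRetraction) :
    ENNReal.ofReal (13 / 20) * ((volume : Measure (E (4 + 2))).toSphere univ / 2) ≤ S.vol := by
  refine vol_chk (by norm_num) S hS ht (l := 21 / 25) (by norm_num) (by norm_num) L5 t5 ?_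
  have h := (Rat.cast_le (K := ℝ)).2 u5
  push_cast at h
  rw [w4]
  refine le_trans ?_ h
  have := Real.pi_lt_d4
  norm_num
  linarith

theorem d5 (S : Fill 5 M) (hS : S.NonShort) (ht : S.Triangulated ∨ S.NoRetraction) :
    ENNReal.ofReal (3 / 5) * ((volume : Measure (E (5 + 2))).toSphere univ / 2) ≤ S.vol := by
  refine vol_chk (by norm_num) S hS ht (l := 19 / 25) (by norm_num) (by norm_num) L6 t6 ?_
  have h := (Rat.cast_le (K := ℝ)).2 u6
  push_cast at h
  rw [w5]
  refine le_trans ?_ h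
  norm_num

theorem d6 (S : Fill 6 M) (hS : S.NonShort) (ht : S.Triangulated ∨ S.NoRetraction) :
    ENNReal.ofReal (14 / 25) * ((volume : Measure (E (6 + 2))).toSphere univ / 2) ≤ S.vol := by
  refine vol_chk (by norm_num) S hS ht (l := 18 / 25) (by norm_num) (by norm_num) L7 t7 ?_
  have h := (Rat.cast_le (K := ℝ)).2 u7
  push_cast at h
  rw [w6]
  refine le_trans ?_ h
  have := Real.pi_lt_d4
  norm_num
  linarith

theorem d7 (S : Fill 7 M) (hS : S.NonShort) (ht : S.Triangulated ∨ S.NoRetraction) :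
    ENNReal.ofReal (53 / 100) * ((volume : Measure (E (7 + 2))).toSphere univ / 2) ≤ S.vol := by
  refine vol_chk (by norm_num) S hS ht (l := 17 / 25) (by norm_num) (by norm_num) L8 t8 ?_
  have h := (Rat.cast_le (K := ℝ)).2 u8
  push_cast at h
  rw [w7]
  refine le_trans ?_ h
  norm_num

theorem d8 (S : Fill 8 M) (hS : S.NonShort) (ht : S.Triangulated ∨ S.NoRetraction) :
    ENNReal.ofReal (1 / 2) * ((volume : Measure (E (8 + 2))).toSphere univ / 2) ≤ S.vol := by
  refine vol_chk (by norm_num) S hS ht (l := 17 / 25) (by norm_num) (by norm_num) L9 t9 ?_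
  have h := (Rat.cast_le (K := ℝ)).2 u9
  push_cast at h
  rw [w8]
  refine le_trans ?_ h
  have := Real.pi_lt_d4
  norm_num
  linarith

theorem d9 (S : Fill 9 M) (hS : S.NonShort) (ht : S.Triangulated ∨ S.NoRetraction) :
    ENNReal.ofReal (12 / 25) * ((volume : Measure (E (9 + 2))).toSphere univ / 2) ≤ S.vol := by
  refine vol_chk (by norm_num) S hS ht (l := 16 / 25) (by norm_num) (by norm_num) L10 t10 ?_
  have h := (Rat.cast_le (K := ℝ)).2 u10
  push_cast at h
  rw [w9]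
  refine le_trans ?_ h
  norm_num

theorem d10 (S : Fill 10 M) (hS : S.NonShort) (ht : S.Triangulated ∨ S.NoRetraction) :
    ENNReal.ofReal (23 / 50) * ((volume : Measure (E (10 + 2))).toSphere univ / 2) ≤ S.vol := by
  refine vol_chk (by norm_num) S hS ht (l := 16 / 25) (by norm_num) (by norm_num) L11 t11 ?_
  have h := (Rat.cast_le (K := ℝ)).2 u11
  push_cast at h
  rw [w10]
  refine le_trans ?_ h
  have := Real.pi_lt_d4
  norm_num
  linarith

end Pool.Agent.K7.H37.FV
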