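import Pool.Agent.K7.H37.FV.Sc

/-!
# The numerator for scaled functions and the main inequality
-/

set_option autoImplicit false

open MeasureTheory Metric Set Filter Topology InnerProductGeometry

namespace Pool.Agent.K7.H37.FV

open Pool.Agent.H241R3.FV (Sph RChart mat act gnorm det_mat)
open Pool.Agent.W716.FV (E gam gd Good)
open Pool.Agent.K7.H34.FV

variable {n : ℕ}

/-- the bound for the derivative of a scaled family -/
def DBm (μ : ℝ) (u : E n → ℝ) (G : Matrix (Fin n) (Fin n) ℝ) (D : E n → E n →L[ℝ] ℝ) : Prop :=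
  ∀ᵐ v ∂(volume : Measure (E n)), ∀ w : E n, (D v w) ^ 2 ≤ (μ ^ 2 * ‖v‖ ^ 2 - u v ^ 2) * qf G w

/-- the mean of the squared norm -/
noncomputable def nm (μ : ℝ) (u : E n → ℝ) (p : E n) : ℝ :=
  μ ^ 2 - ((1 - μ ^ 2) * ‖eta p‖ ^ 2 + k2 u p) / n

theorem good_absm {μ : ℝ} {u : E n → ℝ} (hu : Good μ u) (v : E n) : |u v| ≤ μ * ‖v‖ := by
  have h1 := hu.lip v 0
  have h2 := hu.hom 0 0 le_rfl
  rw [zero_smul, zero_mul] at h2
  rw [h2, sub_zero, sub_zero] at h1
  exact h1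

theorem good_sqm {μ : ℝ} {u : E n → ℝ} (hu : Good μ u) (v : E n) :
    0 ≤ μ ^ 2 * ‖v‖ ^ 2 - u v ^ 2 := by
  have h5 := pow_le_pow_left₀ (abs_nonneg _) (good_absm hu v) 2
  rw [sq_abs, mul_pow] at h5
  linarith

theorem int_Xm {μ : ℝ} (hμ1 : μ ≤ 1) {u : E n → ℝ} (hum : Good μ u) {p : E n} (hp : ‖p‖ < 1)
    (h0 : tau u p = 0) (hn : 0 < n) :
    Integrable (fun g => μ ^ 2 * ‖BB p g‖ ^ 2 - u (BB p g) ^ 2) (gam n) ∧
    ∫ g, (μ ^ 2 * ‖BB p g‖ ^ 2 - u (BB p g) ^ 2) ∂(gam n) = n * nm μ u p := by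
  have hn' : (0 : ℝ) < n := by exact_mod_cast hn
  have hu := good_one hμ1 hum
  obtain ⟨hX1, hX2⟩ := int_X hu hp h0
  have hB : ∀ g : E n, ‖BB p g‖ ^ 2 = ‖g‖ ^ 2 + (inner ℝ g (eta p)) ^ 2 := fun g => by
    rw [norm_BB_sq hp, real_inner_comm g (eta p)]
  have i1 : Integrable (fun g : E n => ‖g‖ ^ 2) (gam n) := PL.norm_sq.integrable
  have i2 : Integrable (fun g : E n => (inner ℝ g (eta p) : ℝ) ^ 2) (gam n) :=
    ((PL.innr (eta p)).pow 2).integrable
  have e : (fun g : E n => μ ^ 2 * ‖BB p g‖ ^ 2 - u (BB p g) ^ 2) =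
      fun g => (‖BB p g‖ ^ 2 - u (BB p g) ^ 2) -
        (1 - μ ^ 2) * (‖g‖ ^ 2 + (inner ℝ g (eta p)) ^ 2) := by
    funext g
    rw [← hB]
    ring
  have i3 : Integrable (fun g : E n => ‖g‖ ^ 2 + (inner ℝ g (eta p) : ℝ) ^ 2) (gam n) := i1.add i2
  rw [e]
  refine ⟨hX1.sub (i3.const_mul _), ?_⟩
  rw [integral_sub hX1 (i3.const_mul _), hX2, integral_const_mul, integral_add i1 i2, hsqi',
    (Pool.Agent.W933.FVGM.main n).2.2.2.2]
  unfold nm
  field_simp
  ring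

theorem nm_nonneg {μ : ℝ} (hμ1 : μ ≤ 1) {u : E n → ℝ} (hum : Good μ u) {p : E n} (hp : ‖p‖ < 1)
    (h0 : tau u p = 0) (hn : 0 < n) : 0 ≤ nm μ u p := by
  have hn' : (0 : ℝ) < n := by exact_mod_cast hn
  obtain ⟨hX1, hX2⟩ := int_Xm hμ1 hum hp h0 hn
  have h5 : 0 ≤ (n : ℝ) * nm μ u p := by
    rw [← hX2]
    exact integral_nonneg fun g => good_sqm hum _
  exact nonneg_of_mul_nonneg_right h5 hn'

theorem DBm_DB {μ : ℝ} (hμ0 : 0 ≤ μ) (hμ1 : μ ≤ 1) {u : E n → ℝ} {G : Matrix (Fin n) (Fin n) ℝ}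
    {D : E n → E n →L[ℝ] ℝ} (hG : G.PosDef) (h : DBm μ u G D) : DB u G D := by
  filter_upwards [h] with v hv w
  refine (hv w).trans (mul_le_mul_of_nonneg_right ?_ ?_)
  · have h1 : μ ^ 2 ≤ 1 := by nlinarith
    have h2 := mul_le_mul_of_nonneg_right h1 (sq_nonneg ‖v‖)
    linarith
  · have h3 := Pool.Agent.W753.FV.BC.gnorm_sq hG w
    unfold qf
    rw [← h3]
    exact sq_nonneg _

theorem Nop_trace_mu {μ : ℝ} (hμ0 : 0 ≤ μ) (hμ1 : μ ≤ 1) {u : E n → ℝ} (hum : Good μ u)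
    {G : Matrix (Fin n) (Fin n) ℝ} (hG : G.PosDef)
    {D : E n → E n →L[ℝ] ℝ} (hD : Measurable D) (h : DBm μ u G D) {p : E n} (hp : ‖p‖ < 1)
    (h0 : tau u p = 0) (hn : 0 < n) (A : Matrix (Fin n) (Fin n) ℝ)
    (hA : A.transpose * G * A = 1) :
    (mat (Nop D p) * A).trace ≤ n * √(nm μ u p) := by
  have hn' : (0 : ℝ) < n := by exact_mod_cast hn
  have hu := good_one hμ1 hum
  obtain ⟨K, hK, hb⟩ := DB_norm hu (DBm_DB hμ0 hμ1 hG h)
  have hi := Nop_integrable hD hK hb hp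
  have hi1 : ∀ w : E n, Integrable (fun g => D (BB p g) w • g) (gam n) := fun w =>
    (ContinuousLinearMap.apply ℝ (E n) w).integrable_comp hi
  have hi2 : ∀ (w : E n) (i : Fin n), Integrable (fun g => D (BB p g) w * g i) (gam n) := by
    intro w i
    have h2 := (innerSL ℝ (bv n i)).integrable_comp (hi1 w)
    refine h2.congr (Eventually.of_forall fun g => ?_)
    simp only [innerSL_apply_apply, real_inner_smul_right]
    rw [real_inner_comm, inner_bv]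
  have hcomp : ∀ (w : E n) (i : Fin n), (Nop D p w) i = ∫ g, D (BB p g) w * g i ∂(gam n) := by
    intro w i
    rw [← inner_bv, real_inner_comm, Nop_apply hD hK hb hp, ← integral_inner (hi1 w)]
    refine integral_congr_ae (Eventually.of_forall fun g => ?_)
    simp only [real_inner_smul_right]
    rw [real_inner_comm, inner_bv]
  have h1 : (mat (Nop D p) * A).trace = ∫ g, D (BB p g) (act A g) ∂(gam n) := by
    have e1 : (mat (Nop D p) * A).trace =
        ∑ i, ∑ j, A j i * ∫ g, D (BB p g) (bv n j) * g i ∂(gam n) := by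
      simp only [Matrix.trace, Matrix.diag, Matrix.mul_apply, mat]
      refine Finset.sum_congr rfl fun i _ => Finset.sum_congr rfl fun j _ => ?_
      rw [hcomp]
      ring
    rw [e1]
    have e2 : ∀ g : E n, D (BB p g) (act A g) =
        ∑ i, ∑ j, A j i * (D (BB p g) (bv n j) * g i) := by
      intro g
      rw [act_eq_sum, map_sum]
      refine Finset.sum_congr rfl fun i _ => ?_
      rw [map_sum]
      refine Finset.sum_congr rfl fun j _ => ?_
      rw [map_smul, smul_eq_mul]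
      ring
    simp only [e2]
    rw [integral_finsetSum _ fun i _ => integrable_finsetSum _ fun j _ => (hi2 _ i).const_mul _]
    refine Finset.sum_congr rfl fun i _ => ?_
    rw [integral_finsetSum _ fun j _ => (hi2 _ i).const_mul _]
    refine Finset.sum_congr rfl fun j _ => ?_
    rw [integral_const_mul]
  obtain ⟨hX1, hX2⟩ := int_Xm hμ1 hum hp h0 hn
  have hXn : ∀ v : E n, 0 ≤ μ ^ 2 * ‖v‖ ^ 2 - u v ^ 2 := good_sqm hum
  have hsq : ∀ g : E n, √(μ ^ 2 * ‖BB p g‖ ^ 2 - u (BB p g) ^ 2) ^ 2 =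
      μ ^ 2 * ‖BB p g‖ ^ 2 - u (BB p g) ^ 2 := fun g => Real.sq_sqrt (hXn _)
  have hc := good_cont hu
  have i5 : Integrable (fun g : E n => √(μ ^ 2 * ‖BB p g‖ ^ 2 - u (BB p g) ^ 2) * ‖g‖) (gam n) := by
    refine integ ‖BB p‖ 2 (by fun_prop : Continuous _).aestronglyMeasurable
      (Eventually.of_forall fun g => ?_)
    rw [Real.norm_of_nonneg (by positivity)]
    have h3 : √(μ ^ 2 * ‖BB p g‖ ^ 2 - u (BB p g) ^ 2) ≤ ‖BB p g‖ := by
      rw [Real.sqrt_le_left (norm_nonneg _)]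
      have : μ ^ 2 ≤ 1 := by nlinarith
      nlinarith [sq_nonneg (u (BB p g)), sq_nonneg ‖BB p g‖]
    calc √(μ ^ 2 * ‖BB p g‖ ^ 2 - u (BB p g) ^ 2) * ‖g‖ ≤ (‖BB p‖ * ‖g‖) * ‖g‖ :=
          mul_le_mul_of_nonneg_right (h3.trans ((BB p).le_opNorm g)) (norm_nonneg _)
      _ = ‖BB p‖ * ‖g‖ ^ 2 := by ring
      _ ≤ _ := mul_le_mul_of_nonneg_left (pow_le_pow_left₀ (norm_nonneg g) (by linarith) 2)
          (norm_nonneg _)
  have h2 : ∫ g, D (BB p g) (act A g) ∂(gam n) ≤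
      ∫ g, √(μ ^ 2 * ‖BB p g‖ ^ 2 - u (BB p g) ^ 2) * ‖g‖ ∂(gam n) := by
    have i6 : Integrable (fun g => D (BB p g) (act A g)) (gam n) := by
      have e2 : ∀ g : E n, D (BB p g) (act A g) =
          ∑ i, ∑ j, A j i * (D (BB p g) (bv n j) * g i) := by
        intro g
        rw [act_eq_sum, map_sum]
        refine Finset.sum_congr rfl fun i _ => ?_
        rw [map_sum]
        refine Finset.sum_congr rfl fun j _ => ?_
        rw [map_smul, smul_eq_mul]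
        ring
      simp only [e2]
      exact integrable_finsetSum _ fun i _ => integrable_finsetSum _ fun j _ =>
        (hi2 _ i).const_mul _
    refine integral_mono_ae i6 i5 ?_
    filter_upwards [ae_BB hp h] with g hg
    have h3 := hg (act A g)
    rw [qf_act hA] at h3
    refine (le_abs_self _).trans (abs_le_of_sq_le_sq ?_ (by positivity))
    rw [mul_pow, hsq]
    exact h3
  have h3 := cauchy (μ := gam n) (f := fun g : E n => √(μ ^ 2 * ‖BB p g‖ ^ 2 - u (BB p g) ^ 2))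
    (g := fun g : E n => ‖g‖) (by simp only [hsq]; exact hX1) PL.norm_sq.integrable i5
  simp only [hsq] at h3
  rw [hX2, (Pool.Agent.W933.FVGM.main n).2.2.2.2] at h3
  rw [h1]
  refine h2.trans ((le_abs_self _).trans (abs_le_of_sq_le_sq ?_ (by positivity)))
  refine h3.trans (le_of_eq ?_)
  rw [mul_pow, Real.sq_sqrt (nm_nonneg hμ1 hum hp h0 hn)]
  ring

/-- the determinant of `N` -/
theorem Nop_det_mu {μ : ℝ} (hμ0 : 0 ≤ μ) (hμ1 : μ ≤ 1) {u : E n → ℝ} (hu : Good μ u)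
    {G : Matrix (Fin n) (Fin n) ℝ} (hG : G.PosDef)
    {D : E n → E n →L[ℝ] ℝ} (hD : Measurable D) (h : DBm μ u G D) {p : E n} (hp : ‖p‖ < 1)
    (h0 : tau u p = 0) (hn : 0 < n) :
    |(Nop D p).det| ≤ √(nm μ u p) ^ n * √G.det := by
  rw [det_mat]
  exact Pool.Agent.H241R3.FV.TMat.taskMat n hn _ G hG _ (Real.sqrt_nonneg _)
    (Nop_trace_mu hμ0 hμ1 hu hG hD h hp h0 hn)

/-- the scaled family -/
def scU {M : Type} (μ : ℝ) (U : M → E n → ℝ) (q : M) (G : E n) : ℝ := μ * U q G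

theorem scU_fam {M : Type} [MetricSpace M] {μ : ℝ} (hμ0 : 0 ≤ μ) (hμ1 : μ ≤ 1)
    {U : M → E n → ℝ} (hU : Fam U) : Fam (scU μ U) ∧ ∀ q, Good μ (scU μ U q) := by
  have hg : ∀ q, Good μ (scU μ U q) := fun q => ⟨fun x y => by
    unfold scU
    rw [← mul_sub, abs_mul, abs_of_nonneg hμ0]
    have := (hU.good q).lip x y
    rw [one_mul] at this
    exact mul_le_mul_of_nonneg_left this hμ0, fun t x ht => by
    unfold scU
    rw [(hU.good q).hom t x ht]
    ring⟩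
  refine ⟨⟨fun q => good_one hμ1 (hg q), fun q q' G => ?_, fun q q' G => ?_⟩, hg⟩
  · unfold scU
    rw [← mul_sub, abs_mul, abs_of_nonneg hμ0]
    have h1 := hU.lipq q q' G
    have h2 : 0 ≤ ‖G‖ * dist q q' := by positivity
    nlinarith [abs_nonneg (U q G - U q' G)]
  · unfold scU
    rw [← mul_sub, abs_mul, abs_of_nonneg hμ0]
    have h1 := hU.sec q q' G
    have h2 : μ * √(‖G‖ ^ 2 - U q G ^ 2) ≤ √(‖G‖ ^ 2 - (μ * U q G) ^ 2) := by
      apply Real.le_sqrt_of_sq_le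
      have h5 := pow_le_pow_left₀ (abs_nonneg _) (good_abs (hU.good q) G) 2
      rw [sq_abs] at h5
      rw [mul_pow, Real.sq_sqrt (by linarith)]
      have : μ ^ 2 ≤ 1 := by nlinarith
      nlinarith [sq_nonneg ‖G‖, sq_nonneg (U q G)]
    have h3 : 0 ≤ dist q' q := dist_nonneg
    have h4 : μ * (‖G‖ * dist q' q ^ 2) ≤ ‖G‖ * dist q' q ^ 2 := by
      have : 0 ≤ ‖G‖ * dist q' q ^ 2 := by positivity
      nlinarith
    calc μ * |U q' G - U q G| ≤
        μ * (√(‖G‖ ^ 2 - U q G ^ 2) * dist q' q + ‖G‖ * dist q' q ^ 2) :=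
          mul_le_mul_of_nonneg_left h1 hμ0
      _ = (μ * √(‖G‖ ^ 2 - U q G ^ 2)) * dist q' q + μ * (‖G‖ * dist q' q ^ 2) := by ring
      _ ≤ _ := add_le_add (mul_le_mul_of_nonneg_right h2 h3) h4

theorem chart_diff_mu {M : Type} [MetricSpace M] {μ : ℝ} {U : M → E n → ℝ} (hU : Fam U)
    (C : RChart n M) :
    ∀ᵐ c ∂(volume : Measure (E n)), c ∈ C.U → ∃ D : E n → E n →L[ℝ] ℝ, Measurable D ∧
      (∀ᵐ G ∂(volume : Measure (E n)), HasFDerivAt (fun c' => scU μ U (C.map c') G) (D G) c) ∧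
        DBm μ (scU μ U (C.map c)) (C.G c) D := by
  filter_upwards [chart_diff hU C] with c hc hcU
  obtain ⟨D, hD, h1, h2⟩ := hc hcU
  refine ⟨fun G => μ • D G, hD.const_smul μ, ?_, ?_⟩
  · filter_upwards [h1] with G hG
    exact hG.const_mul μ
  · filter_upwards [h2] with v hv w
    have h3 := hv w
    have h4 : ((μ • D v) w) ^ 2 = μ ^ 2 * (D v w) ^ 2 := by
      rw [_root_.smul_apply, smul_eq_mul, mul_pow]
    rw [h4]
    unfold scU
    calc μ ^ 2 * (D v w) ^ 2 ≤ μ ^ 2 * ((‖v‖ ^ 2 - U (C.map c) v ^ 2) * qf (C.G c) w) :=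
          mul_le_mul_of_nonneg_left h3 (sq_nonneg _)
      _ = _ := by ring

/-- The main inequality. -/
theorem main_ineq_mu {M : Type} [MetricSpace M] {μ : ℝ} (hμ0 : 0 ≤ μ) (hμ1 : μ ≤ 1)
    {U₀ : M → E n → ℝ} (hU₀ : Fam U₀) (hn : 0 < n) {ρ : ℝ} (hρ0 : 0 ≤ ρ)
    (hρ : ρ < 1) (Jb : E n → ℝ) (hJm : Measurable Jb) (hJ0 : ∀ p, 0 < Jb p)
    (hJ : ∀ u : E n → ℝ, Good μ u → ∀ p : E n, ‖p‖ ≤ ρ → tau u p = 0 →
      √(nm μ u p) ^ n ≤ Jb p * (ContinuousLinearMap.id ℝ (E n) - Sop u p).det ∧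
        0 < (ContinuousLinearMap.id ℝ (E n) - Sop u p).det)
    {ι : Type} [Countable ι] (C : ι → RChart n M)
    (hcov : ∀ p : E n, ‖p‖ ≤ ρ → ∃ i, ∃ c ∈ (C i).D, Gm (scU μ U₀ ((C i).map c)) p = 0) :
    ∫⁻ p in closedBall (0 : E n) ρ, ENNReal.ofReal (pz p * Jb p)⁻¹ ≤
      ∑' i, ∫⁻ c in (C i).D, ENNReal.ofReal √((C i).G c).det := by
  obtain ⟨hU, hUg⟩ := scU_fam hμ0 hμ1 hU₀
  set U := scU μ U₀ with hUdef
  have hpzm : Measurable (pz : E n → ℝ) := by
    have : Continuous (pz : E n → ℝ) := by unfold pz; fun_prop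
    exact this.measurable
  have hfm : ∀ i, AEMeasurable (ff U (C i)) (volume.restrict (Zs U (C i) ρ)) := fun i =>
    (ff_cont hU (C i) hρ0 hρ).aemeasurable (Zs_meas hU (C i) hρ0 hρ)
  have hGm : ∀ i, AEMeasurable (fun c => √((C i).G c).det) (volume.restrict (Zs U (C i) ρ)) := by
    intro i
    have hc : ContinuousOn (fun c => √((C i).G c).det) (C i).U := by
      have h1 : Continuous fun A : Matrix (Fin n) (Fin n) ℝ => √A.det := by fun_prop
      exact h1.comp_continuousOn (C i).cont_G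
    exact (hc.mono fun c hc => (C i).D_sub hc.1).aemeasurable (Zs_meas hU (C i) hρ0 hρ)
  have harea := area_within (volume : Measure (E n)) (fun i => Zs U (C i) ρ)
    (fun i => ff U (C i))
    (fun i c => ENNReal.ofReal (pz (ff U (C i) c) * Jb (ff U (C i) c) * √((C i).G c).det))
    (closedBall (0 : E n) ρ) (fun p => ENNReal.ofReal (pz p * Jb p)⁻¹)
    (fun i => Zs_meas hU (C i) hρ0 hρ) hfm
    (fun i => ((((hpzm.comp_aemeasurable (hfm i)).mul (hJm.comp_aemeasurable (hfm i))).mul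
      (hGm i)).ennreal_ofReal))
    (fun i t ht h0 => null_within (ff_lip hU (C i) hρ0 hρ) ht h0) ?_
    measurableSet_closedBall ((hpzm.mul hJm).inv.ennreal_ofReal) ?_
  · refine harea.trans (ENNReal.tsum_le_tsum fun i => ?_)
    have h1 : ∫⁻ c in Zs U (C i) ρ, ENNReal.ofReal (pz (ff U (C i) c) * Jb (ff U (C i) c) *
        √((C i).G c).det) * ENNReal.ofReal (pz (ff U (C i) c) * Jb (ff U (C i) c))⁻¹ =
        ∫⁻ c in Zs U (C i) ρ, ENNReal.ofReal √((C i).G c).det := by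
      refine setLIntegral_congr_fun (Zs_meas hU (C i) hρ0 hρ) fun c hc => ?_
      have h2 := pz_pos ((ff_spec hU hρ hc).1.trans_lt hρ)
      have h3 := hJ0 (ff U (C i) c)
      rw [← ENNReal.ofReal_mul (by positivity)]
      congr 1
      field_simp
    rw [h1]
    exact lintegral_mono_set fun c hc => hc.1
  · intro i
    filter_upwards [chart_diff_mu (μ := μ) hU₀ (C i)] with c hcd hc
    obtain ⟨D, hD, hder, hDB⟩ := hcd ((C i).D_sub hc.1)
    obtain ⟨L, hL1, hL2⟩ := ff_hasFDeriv hU (C i) hρ0 hρ hc D hD hder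
      (DBm_DB hμ0 hμ1 ((C i).pos_G c ((C i).D_sub hc.1)) hDB)
    refine ⟨L, hL1, ENNReal.ofReal_le_ofReal ?_⟩
    obtain ⟨hp1, hz⟩ := ff_spec hU hρ hc
    have hp := hp1.trans_lt hρ
    have h0 := pz_pos hp
    have htau := (Gm_eq_zero hp).1 hz
    have h1 := det_rel hp hL2
    have h2 := Nop_det_mu hμ0 hμ1 (hUg _) ((C i).pos_G c ((C i).D_sub hc.1)) hD hDB hp htau hn
    obtain ⟨h3, h4⟩ := hJ _ (hUg ((C i).map c)) _ hp1 htau
    set p := ff U (C i) c
    set δ := (ContinuousLinearMap.id ℝ (E n) - Sop (U ((C i).map c)) p).det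
    have h5 : δ * |L.det| = pz p * |(Nop D p).det| := by
      rw [← abs_of_pos h4, ← abs_mul, h1, abs_mul, abs_of_pos h0]
    have h6 : δ * |L.det| ≤ δ * (pz p * Jb p * √((C i).G c).det) := by
      rw [h5]
      calc pz p * |(Nop D p).det| ≤
          pz p * (√(nm μ (U ((C i).map c)) p) ^ n * √((C i).G c).det) :=
            mul_le_mul_of_nonneg_left h2 h0.le
        _ ≤ pz p * ((Jb p * δ) * √((C i).G c).det) :=
            mul_le_mul_of_nonneg_left (mul_le_mul_of_nonneg_right h3 (Real.sqrt_nonneg _)) h0.le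
        _ = _ := by ring
    exact le_of_mul_le_mul_left h6 h4
  · intro p hp
    obtain ⟨i, c, hc, hz⟩ := hcov p (mem_closedBall_zero_iff.1 hp)
    refine mem_iUnion.2 ⟨i, c, ⟨hc, p, mem_closedBall_zero_iff.1 hp, hz⟩, ?_⟩
    exact ff_eq hU ((mem_closedBall_zero_iff.1 hp).trans_lt hρ) hz

end Pool.Agent.K7.H37.FV
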