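import Pool.Agent.K7.H37.FV.Cell

/-!
# The volume bound from a list of shells
-/

set_option autoImplicit false

open MeasureTheory Metric Set Filter Topology InnerProductGeometry

namespace Pool.Agent.K7.H37.FV

open Pool.Agent.H241R3.FV (Sph RChart om Fill norm_sph)
open Pool.Agent.W716.FV (E gam gd Good)
open Pool.Agent.K7.H34.FV

/-- the step function -/
noncomputable def wf (μ : ℝ) : List Data → ℝ → ℝ
  | [], _ => 1
  | D :: L, y => if y < μ * D.c then D.w else wf μ L y

/-- consecutive shells from `a` to `1` -/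
def Chn : ℝ → List Data → Prop
  | a, [] => a = 1
  | a, D :: L => D.a = a ∧ Chn D.c L

/-- the sum -/
noncomputable def sumw (n : ℕ) : List Data → ℝ
  | [] => 0
  | D :: L => D.w * (D.c ^ n - D.a ^ n) + sumw n L

theorem wf_nil (μ y : ℝ) : wf μ [] y = 1 := rfl

theorem wf_cons (μ : ℝ) (D : Data) (L : List Data) (y : ℝ) :
    wf μ (D :: L) y = if y < μ * D.c then D.w else wf μ L y := rfl

theorem sumw_cons (n : ℕ) (D : Data) (L : List Data) :
    sumw n (D :: L) = D.w * (D.c ^ n - D.a ^ n) + sumw n L := rfl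

theorem wf_meas (μ : ℝ) : ∀ L : List Data, Measurable (wf μ L)
  | [] => measurable_const
  | D :: L => by
    have h : wf μ (D :: L) = fun y => if y < μ * D.c then D.w else wf μ L y := rfl
    rw [h]
    exact Measurable.ite measurableSet_Iio measurable_const (wf_meas μ L)

theorem wf_pos (μ : ℝ) : ∀ L : List Data, (∀ D ∈ L, 0 < D.w) → ∀ y, 0 < wf μ L y
  | [], _, y => by unfold wf; exact one_pos
  | D :: L, h, y => by
    unfold wf
    split_ifs
    · exact h D List.mem_cons_self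
    · exact wf_pos μ L (fun D' hD' => h D' (List.mem_cons_of_mem _ hD')) y

theorem wf_sel (μ : ℝ) : ∀ (L : List Data) (a : ℝ), Chn a L → ∀ y, μ * a ≤ y → y < μ →
    ∃ D ∈ L, μ * D.a ≤ y ∧ y ≤ μ * D.c ∧ wf μ L y = D.w
  | [], a, h, y, h1, h2 => by
    exfalso
    have : a = 1 := h
    rw [this, mul_one] at h1
    linarith
  | D :: L, a, h, y, h1, h2 => by
    obtain ⟨ha, hc⟩ := h
    by_cases hy : y < μ * D.c
    · refine ⟨D, List.mem_cons_self, by rw [ha]; exact h1, hy.le, ?_⟩
      unfold wf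
      rw [if_pos hy]
    · obtain ⟨D', hD', h3, h4, h5⟩ := wf_sel μ L D.c hc y (not_lt.1 hy) h2
      refine ⟨D', List.mem_cons_of_mem _ hD', h3, h4, ?_⟩
      unfold wf
      rw [if_neg hy, h5]

theorem vol_ball {n : ℕ} (hn : 0 < n) {r : ℝ} (hr : 0 ≤ r) :
    volume (ball (0 : E n) r) = ENNReal.ofReal (om n * r ^ n) := by
  have : Nonempty (Fin n) := ⟨⟨0, hn⟩⟩
  have hdim : Module.finrank ℝ (E n) = n := by simp
  rw [Measure.addHaar_ball _ _ hr, hdim, mul_comm, ENNReal.ofReal_mul (by unfold om; positivity)]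
  congr 1
  unfold om
  rw [Measure.real, ENNReal.ofReal_toReal measure_ball_lt_top.ne]

theorem shell_int {n : ℕ} (hn : 0 < n) {μ : ℝ} (hμ0 : 0 < μ) : ∀ (L : List Data) (a : ℝ),
    0 ≤ a → Chn a L → (∀ D ∈ L, 0 < D.w ∧ D.a ≤ D.c ∧ D.c ≤ 1) →
    ENNReal.ofReal (om n * μ ^ n * sumw n L) ≤
      ∫⁻ p in ball (0 : E n) μ \ ball (0 : E n) (μ * a), ENNReal.ofReal (wf μ L ‖p‖)
  | [], a, _, _, _ => by
    unfold sumw
    simp
  | D :: L, a, ha0, h, hD => by
    obtain ⟨ha, hc⟩ := h
    obtain ⟨hw, hac, hc1⟩ := hD D List.mem_cons_self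
    have hD' : ∀ D' ∈ L, 0 < D'.w ∧ D'.a ≤ D'.c ∧ D'.c ≤ 1 := fun D' h' =>
      hD D' (List.mem_cons_of_mem _ h')
    have hc0 : 0 ≤ D.c := by rw [← ha] at ha0; linarith
    have ih := shell_int hn hμ0 L D.c hc0 hc hD'
    have hom : 0 ≤ om n := by unfold om; positivity
    have ha0' : 0 ≤ D.a := by rw [ha]; exact ha0
    have hcm : μ * D.c ≤ μ := by nlinarith
    have ham : μ * D.a ≤ μ * D.c := mul_le_mul_of_nonneg_left hac hμ0.le
    have hsub : ball (0 : E n) (μ * D.a) ⊆ ball (0 : E n) (μ * D.c) := ball_subset_ball ham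
    set A := ball (0 : E n) (μ * D.c) \ ball (0 : E n) (μ * D.a) with hA
    set B := ball (0 : E n) μ \ ball (0 : E n) (μ * D.c) with hB
    have hdis : Disjoint A B := by
      rw [Set.disjoint_left]
      intro p hp1 hp2
      exact hp2.2 hp1.1
    have hun : A ∪ B ⊆ ball (0 : E n) μ \ ball (0 : E n) (μ * a) := by
      rintro p (hp | hp)
      · refine ⟨ball_subset_ball hcm hp.1, ?_⟩
        rw [← ha]
        exact hp.2
      · refine ⟨hp.1, fun h => hp.2 ?_⟩
        rw [← ha] at h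
        exact hsub h
    have hmB : MeasurableSet B := measurableSet_ball.diff measurableSet_ball
    have hmA : MeasurableSet A := measurableSet_ball.diff measurableSet_ball
    have e1 : ∫⁻ p in A, ENNReal.ofReal (wf μ (D :: L) ‖p‖) =
        ENNReal.ofReal (om n * μ ^ n * (D.w * (D.c ^ n - D.a ^ n))) := by
      have e2 : ∫⁻ p in A, ENNReal.ofReal (wf μ (D :: L) ‖p‖) =
          ∫⁻ _p in A, ENNReal.ofReal D.w := by
        refine setLIntegral_congr_fun hmA fun p hp => ?_
        have h1 := mem_ball_zero_iff.1 hp.1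
        congr 1
        rw [wf_cons, if_pos h1]
      rw [e2, setLIntegral_const, hA, measure_sdiff hsub measurableSet_ball.nullMeasurableSet
        measure_ball_lt_top.ne, vol_ball hn (mul_nonneg hμ0.le hc0),
        vol_ball hn (mul_nonneg hμ0.le ha0'), ← ENNReal.ofReal_sub _ (by positivity),
        ← ENNReal.ofReal_mul hw.le]
      congr 1
      rw [mul_pow, mul_pow]
      ring
    have e3 : ∫⁻ p in B, ENNReal.ofReal (wf μ (D :: L) ‖p‖) =
        ∫⁻ p in B, ENNReal.ofReal (wf μ L ‖p‖) := by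
      refine setLIntegral_congr_fun hmB fun p hp => ?_
      have h1 : ¬ ‖p‖ < μ * D.c := fun h => hp.2 (mem_ball_zero_iff.2 h)
      congr 1
      rw [wf_cons, if_neg h1]
    refine le_trans ?_ (lintegral_mono_set hun)
    rw [lintegral_union hmB hdis, e1, e3]
    refine le_trans ?_ (add_le_add_right ih _)
    rw [sumw_cons, mul_add]
    exact ENNReal.ofReal_add_le

theorem vol_ge {d : ℕ} (hd : 1 ≤ d) {M : Type} [MetricSpace M] [CompactSpace M] (S : Fill d M)
    (hS : S.NonShort) (htop : S.Triangulated ∨ S.NoRetraction) {μ : ℝ} (hμ0 : 0 < μ)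
    (hμ1 : μ < 1) (L : List Data) (hL : ∀ D ∈ L, D.Ok (d + 1) (μ ^ 2) ∧ 0 < D.w)
    (hc : Chn 0 L) : ENNReal.ofReal (om (d + 1) * sumw (d + 1) L) ≤ S.vol := by
  have := S.countable
  have hn : 0 < d + 1 := Nat.succ_pos d
  have hn2 : 2 ≤ d + 1 := by omega
  have hfam := UC_fam (l := 1) S.bd hn zero_le_one le_rfl
  obtain ⟨hsf, hsg⟩ := scU_fam (n := d + 1) hμ0.le hμ1.le hfam
  have hb1 : ∀ y z : Sph (d + 1), capd 1 y z ≤ dist (S.bd y) (S.bd z) := fun y z => by
    rw [capd_one]
    exact hS y z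
  have hb : ∀ y z : Sph (d + 1), capd μ y z ≤ dist (S.bd y) (S.bd z) := fun y z => by
    refine le_trans ?_ (hb1 y z)
    unfold capd
    apply Real.arccos_le_arccos
    have h1 : (inner ℝ (y : E (d + 1)) (z : E (d + 1)) : ℝ) ≤ 1 := by
      have := real_inner_le_norm (y : E (d + 1)) (z : E (d + 1))
      rwa [norm_sph, norm_sph, one_mul] at this
    have h2 : μ ^ 2 ≤ 1 := by nlinarith
    nlinarith
  have hUb : ∀ (G : E (d + 1)) (x : Sph (d + 1)), scU μ (UC 1 S.bd) (S.bd x) G =
      μ * inner ℝ G (x : E (d + 1)) := fun G x => by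
    unfold scU
    rw [UC_bd S.bd hn zero_le_one le_rfl hb1 G x, one_mul]
  have hμn : 0 < μ ^ (d + 1) := by positivity
  have hwp := wf_pos μ L (fun D hD => (hL D hD).2)
  have key : ∀ ρ : ℝ, 0 ≤ ρ → ρ < μ → ∫⁻ p in closedBall (0 : E (d + 1)) ρ,
      ENNReal.ofReal (wf μ L ‖p‖ / μ ^ (d + 1)) ≤ S.vol := by
    intro ρ hρ0 hρμ
    have hρ : ρ < 1 := hρμ.trans hμ1
    have hq : 0 < √(1 - ρ ^ 2) := Real.sqrt_pos.2 (by nlinarith)
    set Jb : E (d + 1) → ℝ := fun p =>
      μ ^ (d + 1) / (wf μ L ‖p‖ * max (pz p) (√(1 - ρ ^ 2))) with hJb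
    have hJe : ∀ p : E (d + 1), ‖p‖ ≤ ρ → Jb p = μ ^ (d + 1) / (wf μ L ‖p‖ * pz p) := by
      intro p hp
      rw [hJb]
      simp only
      rw [max_eq_left]
      unfold pz
      apply Real.sqrt_le_sqrt
      have := norm_nonneg p
      nlinarith
    have hpzm : Measurable (pz : E (d + 1) → ℝ) := by
      have : Continuous (pz : E (d + 1) → ℝ) := by unfold pz; fun_prop
      exact this.measurable
    have h := main_ineq_mu hμ0.le hμ1.le hfam hn hρ0 hρ Jb
      (by
        rw [hJb]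
        exact measurable_const.div (((wf_meas μ L).comp measurable_norm).mul
          (hpzm.max measurable_const)))
      (fun p => by
        rw [hJb]
        exact div_pos hμn (mul_pos (hwp _) (lt_of_lt_of_le hq (le_max_right _ _))))
      (fun u hu p hp htau => by
        obtain ⟨D, hD, h1, h2, h3⟩ := wf_sel μ L 0 hc ‖p‖ (by simp) (hp.trans_lt hρμ)
        obtain ⟨h4, h5⟩ := cell hn2 hμ0 hμ1 (by exact_mod_cast (hL D hD).1) hu h1 h2 htau
        refine ⟨?_, h5⟩
        have hz := pz_pos (hp.trans_lt hρ)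
        rw [hJe p hp, h3, div_mul_eq_mul_div, le_div_iff₀ (mul_pos (hL D hD).2 hz), mul_comm]
        exact h4)
      (fun i => S.chart i) ?_
    · refine le_trans (le_of_eq ?_) h
      refine setLIntegral_congr_fun measurableSet_closedBall fun p hp => ?_
      have hp' := mem_closedBall_zero_iff.1 hp
      have hz := pz_pos (hp'.trans_lt hρ)
      have hw := hwp ‖p‖
      rw [hJe p hp']
      congr 1
      field_simp
    · intro p hp
      obtain ⟨q, hq⟩ := cover_zero S.bd htop hμ0 hμ1.le hb (scU μ (UC 1 S.bd))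
        (fun q => hsf.good _) (fun q q' G => hsf.lipq _ _ G) hUb (hp.trans_lt hρμ)
      rcases S.cover q with ⟨x, hx⟩ | ⟨i, c, hc, hx⟩
      · exfalso
        have hp1 : ‖p‖ < 1 := hp.trans_lt hρ
        have h1 : scU μ (UC 1 S.bd) q = fun G => μ * inner ℝ G (x : E (d + 1)) := by
          funext G
          rw [← hx]
          exact hUb G x
        rw [h1, Gm_lin hp1, smul_eq_zero_iff_right (inv_ne_zero (pz_pos hp1).ne')] at hq
        have h2 : μ • (x : E (d + 1)) - p = 0 := by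
          rw [← BI_BB hp1 (μ • (x : E (d + 1)) - p),
            ← BI_BB hp1 (BB p (μ • (x : E (d + 1)) - p)), hq, map_zero, map_zero]
        have h3 : ‖p‖ = μ := by
          rw [← sub_eq_zero.1 h2, norm_smul, norm_sph, mul_one]
          exact Real.norm_of_nonneg hμ0.le
        linarith
      · exact ⟨i, c, hc, by rw [hx]; exact hq⟩
  have h1 := ball_le key
  refine le_trans ?_ h1
  have h2 := shell_int (n := d + 1) hn hμ0 L 0 le_rfl hc
    (fun D hD => ⟨(hL D hD).2, (hL D hD).1.ac, (hL D hD).1.c1⟩)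
  rw [mul_zero, ball_zero, sdiff_empty] at h2
  have h3 : ∫⁻ p in ball (0 : E (d + 1)) μ, ENNReal.ofReal (wf μ L ‖p‖ / μ ^ (d + 1)) =
      (∫⁻ p in ball (0 : E (d + 1)) μ, ENNReal.ofReal (wf μ L ‖p‖)) *
        ENNReal.ofReal (1 / μ ^ (d + 1)) := by
    rw [← lintegral_mul_const']
    · refine lintegral_congr fun p => ?_
      rw [← ENNReal.ofReal_mul (hwp _).le]
      congr 1
      ring
    · exact ENNReal.ofReal_ne_top
  rw [h3]
  refine le_trans (le_of_eq ?_) (mul_le_mul_left h2 _)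
  rw [← ENNReal.ofReal_mul']
  · congr 1
    field_simp
  · positivity

end Pool.Agent.K7.H37.FV
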