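import Pool.Agent.K7.H37.FV.Nm

/-!
# Determinants of symmetric operators of trace zero with bounded eigenvalues
-/

set_option autoImplicit false

open MeasureTheory Metric Set Filter Topology InnerProductGeometry

namespace Pool.Agent.K7.H37.FV

open Pool.Agent.W716.FV (E gam gd Good)
open Pool.Agent.K7.H34.FV

variable {n : ℕ}

theorem plus_sum (hn : 2 ≤ n) {x : Fin n → ℝ} {s b v : ℝ} (h0 : ∑ i, x i = 0)
    (hs : ∀ i, x i ≤ s) (hb : ∀ i, -b ≤ x i) (hv : v = b - (n - 2) * s) (hvb : -b ≤ v)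
    (hvs : v ≤ s) : ∑ i, max (x i - v) 0 ≤ (n - 2) * (s - v) := by
  classical
  have hn2 : (2 : ℝ) ≤ n := by exact_mod_cast hn
  set T : Finset (Fin n) := Finset.univ.filter (fun i => v < x i) with hT
  have e : ∑ i, max (x i - v) 0 = ∑ i ∈ T, (x i - v) := by
    rw [hT, Finset.sum_filter]
    refine Finset.sum_congr rfl fun i _ => ?_
    split_ifs with h
    · exact max_eq_left (by linarith)
    · exact max_eq_right (by linarith)
  have hc : T.card ≤ n := by
    have := Finset.card_le_univ T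
    rwa [Fintype.card_fin] at this
  have h1 : ∑ i ∈ T, (x i - v) ≤ T.card * (s - v) := by
    have := Finset.sum_le_card_nsmul T (fun i => x i - v) (s - v) (fun i _ => by
      have := hs i
      linarith)
    rwa [nsmul_eq_mul] at this
  have h2 : ∑ i ∈ T, (x i - v) ≤ b * (n - T.card) - T.card * v := by
    rw [Finset.sum_sub_distrib, Finset.sum_const, nsmul_eq_mul]
    have h3 : ∑ i ∈ T, x i + ∑ i ∈ Tᶜ, x i = 0 := by rw [Finset.sum_add_sum_compl, h0]
    have h4 : Tᶜ.card • (-b) ≤ ∑ i ∈ Tᶜ, x i :=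
      Finset.card_nsmul_le_sum _ _ _ fun i _ => hb i
    rw [nsmul_eq_mul, Finset.card_compl, Fintype.card_fin, Nat.cast_sub hc] at h4
    linarith
  rw [e]
  rcases Nat.lt_or_ge (n - 2) T.card with h | h
  · refine h2.trans ?_
    have hcc : T.card = n - 1 ∨ T.card = n := by omega
    rcases hcc with hcc | hcc
    · rw [hcc, Nat.cast_sub (by omega), Nat.cast_one]
      apply le_of_eq
      rw [hv]
      ring
    · rw [hcc]
      nlinarith
  · refine h1.trans (mul_le_mul_of_nonneg_right ?_ (by linarith))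
    have : (T.card : ℝ) ≤ ((n - 2 : ℕ) : ℝ) := by exact_mod_cast h
    rwa [Nat.cast_sub hn, Nat.cast_ofNat] at this

theorem chord {ψ : ℝ → ℝ} {a c x : ℝ} {S : Set ℝ} (hψ : ConvexOn ℝ S ψ) (ha : a ∈ S) (hc : c ∈ S)
    (hac : a < c) (h1 : a ≤ x) (h2 : x ≤ c) :
    ψ x ≤ ψ a + (ψ c - ψ a) / (c - a) * (x - a) := by
  have hd : 0 < c - a := by linarith
  have h := hψ.2 ha hc (show 0 ≤ (c - x) / (c - a) from div_nonneg (by linarith) hd.le)
    (show 0 ≤ (x - a) / (c - a) from div_nonneg (by linarith) hd.le) (by field_simp; ring)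
  have e : ((c - x) / (c - a)) • a + ((x - a) / (c - a)) • c = x := by
    simp only [smul_eq_mul]
    field_simp
    ring
  rw [e] at h
  refine h.trans (le_of_eq ?_)
  simp only [smul_eq_mul]
  field_simp
  ring

theorem vertex (hn : 2 ≤ n) {x : Fin n → ℝ} {s b v : ℝ} (h0 : ∑ i, x i = 0)
    (hs : ∀ i, x i ≤ s) (hb : ∀ i, -b ≤ x i) (hv : v = b - (n - 2) * s) (hvb : -b < v)
    (hvs : v < s) {ψ : ℝ → ℝ} (hψ : ConvexOn ℝ (Icc (-b) s) ψ) :
    ∑ i, ψ (x i) ≤ (n - 2) * ψ s + ψ v + ψ (-b) := by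
  have hn2 : (2 : ℝ) ≤ n := by exact_mod_cast hn
  have mb : -b ∈ Icc (-b) s := ⟨le_rfl, by linarith⟩
  have mv : v ∈ Icc (-b) s := ⟨hvb.le, hvs.le⟩
  have ms : s ∈ Icc (-b) s := ⟨by linarith, le_rfl⟩
  set σ1 := (ψ s - ψ v) / (s - v) with hσ1
  set σ0 := (ψ v - ψ (-b)) / (v - -b) with hσ0
  have hmono : σ0 ≤ σ1 := hψ.slope_mono_adjacent mb ms hvb hvs
  have e1 : σ1 * (s - v) = ψ s - ψ v := by
    rw [hσ1]
    exact div_mul_cancel₀ _ (by linarith)
  have e0 : σ0 * (v + b) = ψ v - ψ (-b) := by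
    rw [hσ0, sub_neg_eq_add]
    exact div_mul_cancel₀ _ (by linarith)
  have key : ∀ i, ψ (x i) ≤ ψ v + σ0 * (x i - v) + (σ1 - σ0) * max (x i - v) 0 := by
    intro i
    rcases le_total (x i) v with h | h
    · rw [max_eq_right (by linarith), mul_zero, add_zero]
      have h3 := chord hψ mb mv hvb (hb i) h
      rw [← hσ0] at h3
      nlinarith
    · rw [max_eq_left (by linarith)]
      have h3 := chord hψ mv ms hvs h (hs i)
      rw [← hσ1] at h3
      nlinarith
  have h1 : ∑ i, ψ (x i) ≤ ∑ i, (ψ v + σ0 * (x i - v) + (σ1 - σ0) * max (x i - v) 0) :=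
    Finset.sum_le_sum fun i _ => key i
  have h2 : ∑ i, (ψ v + σ0 * (x i - v) + (σ1 - σ0) * max (x i - v) 0) =
      n * ψ v - n * v * σ0 + (σ1 - σ0) * ∑ i, max (x i - v) 0 := by
    rw [Finset.sum_add_distrib, Finset.sum_add_distrib, ← Finset.mul_sum, ← Finset.mul_sum,
      Finset.sum_sub_distrib, h0]
    simp only [Finset.sum_const, Finset.card_univ, Fintype.card_fin, nsmul_eq_mul]
    ring
  rw [h2] at h1
  have h3 := mul_le_mul_of_nonneg_left (plus_sum hn h0 hs hb hv hvb.le hvs.le)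
    (sub_nonneg.2 hmono)
  refine h1.trans ((add_le_add_right h3 _).trans (le_of_eq ?_))
  have h4 : (n : ℝ) * v + (n - 2) * (s - v) = v + b := by rw [hv]; ring
  calc (n : ℝ) * ψ v - n * v * σ0 + (σ1 - σ0) * ((n - 2) * (s - v)) =
      n * ψ v + (n - 2) * (σ1 * (s - v)) - σ0 * (n * v + (n - 2) * (s - v)) := by ring
    _ = n * ψ v + (n - 2) * (ψ s - ψ v) - σ0 * (v + b) := by rw [e1, h4]
    _ = _ := by rw [e0]; ring

/-- the function -/
noncomputable def psi (θ x : ℝ) : ℝ := -Real.log (1 - x) - θ * x ^ 2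

theorem psi_conv {θ s b : ℝ} (hs : s < 1) (hθ : 2 * θ * (1 + b) ^ 2 ≤ 1) :
    ConvexOn ℝ (Icc (-b) s) (psi θ) := by
  have hd : ∀ x : ℝ, x ≤ s → HasDerivAt (psi θ) ((1 - x)⁻¹ - θ * (2 * x)) x := by
    intro x hx
    have h1 : HasDerivAt (fun y : ℝ => 1 - y) (-1) x := by
      simpa using (hasDerivAt_id x).const_sub 1
    have h2 := (h1.log (by linarith)).neg.sub ((hasDerivAt_pow 2 x).const_mul θ)
    unfold psi
    refine h2.congr_deriv ?_
    have : (1 - x) ≠ 0 := by linarith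
    field_simp
    norm_num
    ring
  have hd2 : ∀ x : ℝ, x ≤ s → HasDerivAt (fun x : ℝ => (1 - x)⁻¹ - θ * (2 * x))
      (((1 - x) ^ 2)⁻¹ - 2 * θ) x := by
    intro x hx
    have h1 : HasDerivAt (fun y : ℝ => 1 - y) (-1) x := by
      simpa using (hasDerivAt_id x).const_sub 1
    have h0 : (1 - x) ≠ 0 := by linarith
    have h2 := (h1.inv h0).sub (((hasDerivAt_id x).const_mul 2).const_mul θ)
    refine h2.congr_deriv ?_
    field_simp
  refine convexOn_of_hasDerivWithinAt2_nonneg (convex_Icc _ _)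
    (fun x hx => (hd x hx.2).continuousAt.continuousWithinAt)
    (f' := fun x => (1 - x)⁻¹ - θ * (2 * x)) (f'' := fun x => ((1 - x) ^ 2)⁻¹ - 2 * θ)
    (fun x hx => (hd x (interior_subset hx).2).hasDerivWithinAt)
    (fun x hx => (hd2 x (interior_subset hx).2).hasDerivWithinAt) (fun x hx => ?_)
  have hx' := interior_subset hx
  have h1 : 0 < 1 - x := by linarith [hx'.2]
  have h2 : 1 - x ≤ 1 + b := by linarith [hx'.1]
  rw [sub_nonneg]
  rcases le_total θ 0 with h | h
  · have : 0 < ((1 - x) ^ 2)⁻¹ := by positivity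
    linarith
  · have h3 : (1 - x) ^ 2 ≤ (1 + b) ^ 2 := pow_le_pow_left₀ h1.le h2 2
    have h4 : 2 * θ * (1 - x) ^ 2 ≤ 1 :=
      (mul_le_mul_of_nonneg_left h3 (by linarith)).trans hθ
    rw [← one_div, le_div_iff₀ (by positivity)]
    exact h4

/-- the value of the determinant at the vertex -/
noncomputable def dV (n : ℕ) (s b : ℝ) : ℝ :=
  (1 - s) ^ (n - 2) * (1 - (b - (n - 2) * s)) * (1 + b)

/-- the value of the norm at the vertex -/
noncomputable def hV (n : ℕ) (s b : ℝ) : ℝ :=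
  (n - 2) * s ^ 2 + (b - (n - 2) * s) ^ 2 + b ^ 2

/-- the exponent for small eigenvalues -/
noncomputable def phs (s : ℝ) : ℝ := 1 / 2 + s / 3 + s ^ 2 / 4 + s ^ 3 / 5 + s ^ 4 / (1 - s)

theorem log_phs {s x : ℝ} (hs0 : 0 ≤ s) (hs1 : s < 1) (hx : x ≤ s) :
    -Real.log (1 - x) ≤ x + phs s * x ^ 2 := by
  rcases le_total 0 x with h0 | h0
  · have h1 : |x| < 1 := by rw [abs_of_nonneg h0]; linarith
    have h2 := (abs_le.1 (Real.abs_log_sub_add_sum_range_le h1 5)).1
    simp only [Finset.sum_range_succ, Finset.sum_range_zero] at h2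
    rw [abs_of_nonneg h0] at h2
    norm_num at h2
    have h3 : x ^ 6 / (1 - x) ≤ s ^ 4 / (1 - s) * x ^ 2 := by
      rw [div_mul_eq_mul_div, div_le_div_iff₀ (by linarith) (by linarith)]
      have h4 : x ^ 4 ≤ s ^ 4 := pow_le_pow_left₀ h0 hx 4
      have h5 : x ^ 4 * (1 - s) ≤ s ^ 4 * (1 - x) :=
        mul_le_mul h4 (by linarith) (by linarith) (by positivity)
      nlinarith [mul_le_mul_of_nonneg_right h5 (sq_nonneg x)]
    have h6 : x ^ 3 ≤ s * x ^ 2 := by nlinarith [mul_le_mul_of_nonneg_right hx (sq_nonneg x)]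
    have h7 : x ^ 4 ≤ s ^ 2 * x ^ 2 := by
      have := mul_le_mul_of_nonneg_right (pow_le_pow_left₀ h0 hx 2) (sq_nonneg x)
      nlinarith
    have h8 : x ^ 5 ≤ s ^ 3 * x ^ 2 := by
      have := mul_le_mul_of_nonneg_right (pow_le_pow_left₀ h0 hx 3) (sq_nonneg x)
      nlinarith
    unfold phs
    nlinarith
  · have h2 := Real.le_log_one_add_of_nonneg (x := -x) (by linarith)
    have e : 1 + -x = 1 - x := by ring
    rw [e] at h2
    have h3 : -x - x ^ 2 / 2 ≤ 2 * -x / (-x + 2) := by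
      rw [le_div_iff₀ (by linarith)]
      nlinarith [mul_nonneg (sq_nonneg x) (neg_nonneg.2 h0)]
    have h4 : 1 / 2 ≤ phs s := by
      unfold phs
      have : 0 ≤ s ^ 4 / (1 - s) := div_nonneg (by positivity) (by linarith)
      have : 0 ≤ s ^ 2 / 4 := by positivity
      have : 0 ≤ s ^ 3 / 5 := by positivity
      linarith
    have h5 := mul_le_mul_of_nonneg_right h4 (sq_nonneg x)
    linarith

theorem det_bounds (hn : 2 ≤ n) {A : E n →L[ℝ] E n} (hA : Sy A) (h0 : tr A = 0) {s b θ : ℝ}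
    (hs0 : 0 ≤ s) (hs1 : s < 1) (hvb : -b < b - (n - 2) * s) (hvs : b - (n - 2) * s < s)
    (hθ : 2 * θ * (1 + b) ^ 2 ≤ 1)
    (h : ∀ x : E n, ‖x‖ = 1 → (inner ℝ (A x) x : ℝ) ≤ s)
    (h' : ∀ x : E n, ‖x‖ = 1 → -(inner ℝ (A x) x : ℝ) ≤ b) :
    0 < (ContinuousLinearMap.id ℝ (E n) - A).det ∧
    -(phs s * hs A) ≤ Real.log (ContinuousLinearMap.id ℝ (E n) - A).det ∧
    Real.log (dV n s b) + θ * (hV n s b - hs A) ≤
      Real.log (ContinuousLinearMap.id ℝ (E n) - A).det := by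
  obtain ⟨ev, bb, hb, hhs, htr, hdet⟩ := spec hA
  have e1 : ∀ i, ev i ≤ s := fun i => by
    have := h (bb i) (bb.norm_eq_one i)
    rwa [hb, real_inner_smul_left, real_inner_self_eq_norm_sq, bb.norm_eq_one, one_pow,
      mul_one] at this
  have e2 : ∀ i, -b ≤ ev i := fun i => by
    have := h' (bb i) (bb.norm_eq_one i)
    rw [hb, real_inner_smul_left, real_inner_self_eq_norm_sq, bb.norm_eq_one, one_pow,
      mul_one] at this
    linarith
  have hp : ∀ i, 0 < 1 - ev i := fun i => by linarith [e1 i]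
  have hpos : 0 < (ContinuousLinearMap.id ℝ (E n) - A).det := by
    rw [hdet]
    exact Finset.prod_pos fun i _ => hp i
  have hlog : Real.log (ContinuousLinearMap.id ℝ (E n) - A).det = ∑ i, Real.log (1 - ev i) := by
    rw [hdet]
    exact Real.log_prod fun i _ => (hp i).ne'
  rw [h0] at htr
  refine ⟨hpos, ?_, ?_⟩
  · rw [hlog, hhs, Finset.mul_sum]
    have h1 : ∑ i, -Real.log (1 - ev i) ≤ ∑ i, (ev i + phs s * ev i ^ 2) :=
      Finset.sum_le_sum fun i _ => log_phs hs0 hs1 (e1 i)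
    rw [Finset.sum_neg_distrib, Finset.sum_add_distrib, ← htr, zero_add] at h1
    linarith
  · have h1 := vertex hn htr.symm e1 e2 rfl hvb hvs (psi_conv hs1 hθ)
    have h2 : ∑ i, psi θ (ev i) = -(∑ i, Real.log (1 - ev i)) - θ * hs A := by
      unfold psi
      rw [Finset.sum_sub_distrib, Finset.sum_neg_distrib, ← Finset.mul_sum, hhs]
    rw [h2] at h1
    rw [hlog]
    have hb0 : 0 < 1 + b := by
      have : s < 1 := hs1
      have hn2 : (2 : ℝ) ≤ n := by exact_mod_cast hn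
      have : 0 ≤ (n - 2) * s := mul_nonneg (by linarith) hs0
      linarith
    have h3 : Real.log (dV n s b) =
        (n - 2) * Real.log (1 - s) + Real.log (1 - (b - (n - 2) * s)) + Real.log (1 + b) := by
      unfold dV
      rw [Real.log_mul (by
          apply mul_ne_zero
          · exact pow_ne_zero _ (by linarith)
          · linarith) hb0.ne', Real.log_mul (pow_ne_zero _ (by linarith)) (by linarith),
        Real.log_pow, Nat.cast_sub hn, Nat.cast_ofNat]
    rw [h3]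
    unfold psi at h1
    unfold hV
    rw [sub_neg_eq_add] at h1
    nlinarith

/-- the combined bound -/
theorem det_mix (hn : 2 ≤ n) {A : E n →L[ℝ] E n} (hA : Sy A) (h0 : tr A = 0) {s b θ m θ' f : ℝ}
    (hs0 : 0 ≤ s) (hs1 : s < 1) (hvb : -b < b - (n - 2) * s) (hvs : b - (n - 2) * s < s)
    (hθ : 2 * θ * (1 + b) ^ 2 ≤ 1) (hθ0 : 0 ≤ θ) (hm0 : 0 ≤ m) (hm1 : m ≤ 1)
    (hθ' : m * θ + (1 - m) * phs s ≤ θ')
    (hf0 : 0 < f) (hf : f ≤ dV n s b * (1 + θ * hV n s b + (θ * hV n s b) ^ 2 / 2))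
    (h : ∀ x : E n, ‖x‖ = 1 → (inner ℝ (A x) x : ℝ) ≤ s)
    (h' : ∀ x : E n, ‖x‖ = 1 → -(inner ℝ (A x) x : ℝ) ≤ b) :
    0 < (ContinuousLinearMap.id ℝ (E n) - A).det ∧
    f / (f + m * (1 - f)) * Real.exp (-(θ' * hs A)) ≤
      (ContinuousLinearMap.id ℝ (E n) - A).det := by
  obtain ⟨hpos, h1, h2⟩ := det_bounds hn hA h0 hs0 hs1 hvb hvs hθ h h'
  refine ⟨hpos, ?_⟩
  set D := (ContinuousLinearMap.id ℝ (E n) - A).det with hD
  set H := hs A with hH
  have hH0 : 0 ≤ H := hs_nonneg _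
  have hn2 : (2 : ℝ) ≤ n := by exact_mod_cast hn
  have hV0 : 0 ≤ hV n s b := by
    unfold hV
    have : 0 ≤ ((n : ℝ) - 2) * s ^ 2 := mul_nonneg (by linarith) (sq_nonneg _)
    positivity
  have hdV : 0 < dV n s b := by
    have h3 : 0 < 1 + θ * hV n s b + (θ * hV n s b) ^ 2 / 2 := by
      have := mul_nonneg hθ0 hV0
      positivity
    by_contra hcon
    push Not at hcon
    have := mul_nonpos_of_nonpos_of_nonneg hcon h3.le
    linarith
  have h3 : Real.log f ≤ Real.log (dV n s b) + θ * hV n s b := by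
    have h4 := Real.quadratic_le_exp_of_nonneg (mul_nonneg hθ0 hV0)
    rw [Real.log_le_iff_le_exp hf0, Real.exp_add, Real.exp_log hdV]
    exact hf.trans (mul_le_mul_of_nonneg_left h4 hdV.le)
  have h5 : m * Real.log f - θ' * H ≤ Real.log D := by
    have a1 : m * (Real.log f - θ * H) ≤ m * Real.log D :=
      mul_le_mul_of_nonneg_left (by linarith) hm0
    have a2 : (1 - m) * (-(phs s * H)) ≤ (1 - m) * Real.log D :=
      mul_le_mul_of_nonneg_left h1 (by linarith)
    have a3 := mul_le_mul_of_nonneg_right hθ' hH0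
    nlinarith
  have h6 : Real.log (f / (f + m * (1 - f))) ≤ m * Real.log f := by
    have hden : 0 < f + m * (1 - f) := by
      rcases eq_or_lt_of_le hm1 with h | h
      · rw [h]; linarith
      · have : 0 < (1 - m) * f := mul_pos (by linarith) hf0
        nlinarith
    have e : f / (f + m * (1 - f)) = ((1 - m) * 1 + m * f⁻¹)⁻¹ := by
      have : (1 - m) * 1 + m * f⁻¹ = (f + m * (1 - f)) / f := by field_simp; ring
      rw [this, inv_div]
    have h7 := strictConcaveOn_log_Ioi.concaveOn.2 (x := 1) (y := f⁻¹) (mem_Ioi.2 one_pos)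
      (mem_Ioi.2 (inv_pos.2 hf0)) (by linarith : 0 ≤ 1 - m) hm0 (by ring)
    simp only [smul_eq_mul, Real.log_one, mul_zero, zero_add, Real.log_inv] at h7
    rw [e, Real.log_inv]
    linarith
  have hden : 0 < f / (f + m * (1 - f)) := by
    apply div_pos hf0
    rcases eq_or_lt_of_le hm1 with h | h
    · rw [h]; linarith
    · have : 0 < (1 - m) * f := mul_pos (by linarith) hf0
      nlinarith
  rw [← Real.log_le_log_iff (by positivity) hpos, Real.log_mul hden.ne' (Real.exp_pos _).ne',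
    Real.log_exp]
  linarith

end Pool.Agent.K7.H37.FV
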